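import Mathlib

set_option autoImplicit false

/-! Part GIR of the RG swarm (helper55): a monic irreducible polynomial remains irreducible over
fields of rational functions. The statement is the body of `S_GIR`. -/

open Polynomial

namespace Pool.Agent.Helper79.RG

theorem gir : ∀ (κ σ : Type) [Field κ] (g : κ[X]), g.Monic → Irreducible g →
    Irreducible (g.map (algebraMap κ (FractionRing (MvPolynomial σ κ)))) := by
  intro κ σ _ g hg hirr
  have h1 : Irreducible (g.map (algebraMap κ (MvPolynomial σ κ))) := by
    refine Polynomial.Monic.irreducible_of_irreducible_map (MvPolynomial.aeval (fun _ : σ => (0 : κ)) : MvPolynomial σ κ →ₐ[κ] κ).toRingHom _ (hg.map _) ?_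
    rw [Polynomial.map_map]
    have : ((MvPolynomial.aeval (fun _ : σ => (0 : κ)) : MvPolynomial σ κ →ₐ[κ] κ).toRingHom).comp
        (algebraMap κ (MvPolynomial σ κ)) = RingHom.id κ := by
      ext x
      simp
    rw [this, Polynomial.map_id]
    exact hirr
  have h2 := (Polynomial.Monic.irreducible_iff_irreducible_map_fraction_map
    (K := FractionRing (MvPolynomial σ κ)) (hg.map (algebraMap κ (MvPolynomial σ κ)))).1 h1
  rw [Polynomial.map_map] at h2
  rw [IsScalarTower.algebraMap_eq κ (MvPolynomial σ κ) (FractionRing (MvPolynomial σ κ))]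
  exact h2

end Pool.Agent.Helper79.RG
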