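import Mathlib

set_option autoImplicit false

/-! Part IAL of the RG swarm (helper55): in a factorization of `G` modulo `P` everything is
algebraic. The statement is the body of `S_IAL`. -/

open Polynomial

namespace Pool.Agent.Helper79.RG

section

variable {E M : Type} [Field E] [Field M] [IsAlgClosed M] [Algebra E M]

/-- all coefficients are algebraic -/
def Alg (E : Type) {M : Type} [Field E] [Field M] [Algebra E M] (p : M[X]) : Prop :=
  ∀ n, IsAlgebraic E (p.coeff n)

omit [IsAlgClosed M] in
lemma alg_iff (p : M[X]) :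
    Alg E p ↔ ∃ q : (algebraicClosure E M)[X], q.map (algebraMap (algebraicClosure E M) M) = p := by
  constructor
  · intro h
    have : p ∈ Polynomial.lifts (algebraMap (algebraicClosure E M) M) := by
      rw [Polynomial.lifts_iff_coeff_lifts]
      intro n
      exact ⟨⟨p.coeff n, mem_algebraicClosure_iff.2 (h n)⟩, rfl⟩
    exact (Polynomial.mem_lifts p).1 this
  · rintro ⟨q, rfl⟩ n
    rw [coeff_map]
    exact mem_algebraicClosure_iff.1 (q.coeff n).2

lemma root_alg {p : M[X]} (hp : Alg E p) (h0 : p ≠ 0) {x : M} (hx : p.eval x = 0) :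
    IsAlgebraic E x := by
  obtain ⟨q, rfl⟩ := (alg_iff p).1 hp
  have hq0 : q ≠ 0 := by
    rintro rfl
    simp at h0
  have h1 : IsAlgebraic (algebraicClosure E M) x := ⟨q, hq0, by
    rw [aeval_def, ← eval_map]; exact hx⟩
  exact h1.restrictScalars E

lemma alg_mul {p q : M[X]} (hp : Alg E p) (hq : Alg E q) : Alg E (p * q) := by
  obtain ⟨p', rfl⟩ := (alg_iff p).1 hp
  obtain ⟨q', rfl⟩ := (alg_iff q).1 hq
  exact (alg_iff _).2 ⟨p' * q', by simp⟩

lemma alg_prod_roots (s : Multiset M) (hs : ∀ a ∈ s, IsAlgebraic E a) :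
    Alg E (s.map fun a => X - C a).prod := by
  induction s using Multiset.induction_on with
  | empty =>
    intro n
    simp only [Multiset.map_zero, Multiset.prod_zero, coeff_one]
    split_ifs
    · exact isAlgebraic_one
    · exact isAlgebraic_zero
  | cons a s ih =>
    rw [Multiset.map_cons, Multiset.prod_cons]
    refine alg_mul ?_ (ih fun b hb => hs b (Multiset.mem_cons_of_mem hb))
    have ha := hs a (Multiset.mem_cons_self a s)
    exact (alg_iff _).2 ⟨X - C ⟨a, mem_algebraicClosure_iff.2 ha⟩, by simp⟩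

lemma alg_of_dvd {p q : M[X]} (hp : Alg E p) (h0 : p ≠ 0) (hq : q.Monic) (h : q ∣ p) :
    Alg E q := by
  have h1 : q = (q.roots.map fun a => X - C a).prod := by
    have := (IsAlgClosed.splits q).eq_prod_roots
    rw [hq.leadingCoeff] at this
    simpa using this
  rw [h1]
  apply alg_prod_roots
  intro a ha
  have hr : q.eval a = 0 := (mem_roots hq.ne_zero).1 ha
  obtain ⟨c, rfl⟩ := h
  exact root_alg hp h0 (by rw [eval_mul, hr, zero_mul])

lemma alg_interp {P p : M[X]} (hP : P.Separable) (hPa : Alg E P) (hd : p.degree < P.degree)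
    (h : ∀ θ, P.eval θ = 0 → IsAlgebraic E (p.eval θ)) : Alg E p := by
  classical
  have hP0 : P ≠ 0 := hP.ne_zero
  have hcard : P.roots.toFinset.card = P.natDegree := by
    rw [Multiset.toFinset_card_of_nodup (nodup_roots hP)]
    exact (IsAlgClosed.splits P).natDegree_eq_card_roots.symm
  let A := algebraicClosure E M
  let f := algebraMap A M
  -- the roots as elements of `A`
  have hroot : ∀ θ ∈ P.roots.toFinset, IsAlgebraic E θ := by
    intro θ hθ
    rw [Multiset.mem_toFinset, mem_roots hP0] at hθ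
    exact root_alg hPa hP0 hθ
  let s : Finset A := P.roots.toFinset.attach.image fun θ =>
    ⟨θ.1, mem_algebraicClosure_iff.2 (hroot θ.1 θ.2)⟩
  have hs : s.image f = P.roots.toFinset := by
    ext x
    simp only [s, Finset.mem_image, Finset.mem_attach, true_and, Subtype.exists, f]
    constructor
    · rintro ⟨a, ha, ⟨b, hb, hab⟩, rfl⟩
      have : b = a := congrArg Subtype.val hab
      subst this
      exact hb
    · intro hx
      exact ⟨x, mem_algebraicClosure_iff.2 (hroot x hx), ⟨x, hx, rfl⟩, rfl⟩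
  have hfinj : Function.Injective f := f.injective
  have hscard : s.card = P.natDegree := by
    rw [← hcard, ← hs, Finset.card_image_of_injective _ hfinj]
  have hmem : ∀ a ∈ s, P.eval (f a) = 0 := by
    intro a ha
    have : f a ∈ P.roots.toFinset := by
      rw [← hs]; exact Finset.mem_image_of_mem f ha
    rw [Multiset.mem_toFinset, mem_roots hP0] at this
    exact this
  let r : A → A := fun a => if ha : P.eval (f a) = 0 then
    ⟨p.eval (f a), mem_algebraicClosure_iff.2 (h _ ha)⟩ else 0
  have hr : ∀ a ∈ s, f (r a) = p.eval (f a) := by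
    intro a ha
    simp only [r, dif_pos (hmem a ha)]
    rfl
  let g : A[X] := Lagrange.interpolate s (fun a => a) r
  have hg : ∀ a ∈ s, g.eval a = r a := fun a ha =>
    Lagrange.eval_interpolate_at_node r (fun _ _ _ _ h => h) ha
  have hgd : g.degree < s.card := Lagrange.degree_interpolate_lt r (fun _ _ _ _ h => h)
  refine (alg_iff p).2 ⟨g, ?_⟩
  have hPd : P.degree = (s.card : WithBot ℕ) := by
    rw [hscard]; exact degree_eq_natDegree hP0
  refine Polynomial.eq_of_degrees_lt_of_eval_finset_eq (s.image f) ?_ ?_ ?_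
  · rw [Finset.card_image_of_injective _ hfinj]
    rw [degree_map]
    exact hgd
  · rw [Finset.card_image_of_injective _ hfinj, ← hPd]
    exact hd
  · intro x hx
    obtain ⟨a, ha, rfl⟩ := Finset.mem_image.1 hx
    rw [eval_map, eval₂_at_apply, hg a ha, hr a ha]

lemma alg_of_mul {P p : M[X]} (hP : Alg E P) (h0 : P ≠ 0) (h : Alg E (P * p)) : Alg E p := by
  obtain ⟨P', rfl⟩ := (alg_iff P).1 hP
  obtain ⟨q, hq⟩ := (alg_iff _).1 h
  refine (alg_iff _).2 ⟨q / P', ?_⟩
  rw [Polynomial.map_div, hq]
  exact mul_div_cancel_left₀ p h0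

omit [IsAlgClosed M] in
lemma alg_sub {p q : M[X]} (hp : Alg E p) (hq : Alg E q) : Alg E (p - q) := fun n => by
  rw [coeff_sub]; exact (hp n).sub (hq n)

omit [IsAlgClosed M] in
lemma isAlg_sum {ι : Type} (s : Finset ι) (F : ι → M) (h : ∀ i ∈ s, IsAlgebraic E (F i)) :
    IsAlgebraic E (∑ i ∈ s, F i) := by
  classical
  induction s using Finset.induction_on with
  | empty => simpa using isAlgebraic_zero
  | insert a s ha ih =>
    rw [Finset.sum_insert ha]
    exact (h a (Finset.mem_insert_self a s)).add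
      (ih fun i hi => h i (Finset.mem_insert_of_mem hi))

lemma alg_sum {ι : Type} (s : Finset ι) (F : ι → M[X]) (h : ∀ i ∈ s, Alg E (F i)) :
    Alg E (∑ i ∈ s, F i) := fun n => by
  rw [finsetSum_coeff]
  exact isAlg_sum s _ fun i hi => h i hi n

end

theorem ial : ∀ (E M : Type) [Field E] [Field M] [IsAlgClosed M] [Algebra E M] (P : M[X])
    (G u v h : M[X][X]), P.Separable → (∀ n, IsAlgebraic E (P.coeff n)) →
    (∀ m n, IsAlgebraic E ((G.coeff m).coeff n)) → u.Monic → v.Monic →
    (∀ m, (u.coeff m).degree < P.degree) → (∀ m, (v.coeff m).degree < P.degree) →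
    G = u * v + C P * h → ∀ m n, IsAlgebraic E ((u.coeff m).coeff n) ∧
      IsAlgebraic E ((v.coeff m).coeff n) ∧ IsAlgebraic E ((h.coeff m).coeff n) := by
  intro E M _ _ _ _ P G u v h hPs hPa hGa hu hv hud hvd hG
  have hP0 : P ≠ 0 := hPs.ne_zero
  -- evaluation at a root
  have key : ∀ θ, P.eval θ = 0 → ∀ w w' : M[X][X], w.Monic → w'.Monic →
      G = w * w' + C P * h → Alg E (w.map (evalRingHom θ)) := by
    intro θ hθ w w' hw hw' hGw
    have hGθ : G.map (evalRingHom θ) = w.map (evalRingHom θ) * w'.map (evalRingHom θ) := by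
      rw [hGw, Polynomial.map_add, Polynomial.map_mul, Polynomial.map_mul, map_C]
      simp [hθ]
    have hGalg : Alg E (G.map (evalRingHom θ)) := by
      intro m
      rw [coeff_map, coe_evalRingHom, eval_eq_sum_range]
      refine isAlg_sum _ _ fun i _ => (hGa m i).mul (IsAlgebraic.pow (root_alg hPa hP0 hθ) i)
    refine alg_of_dvd hGalg ?_ (hw.map _) ⟨_, hGθ⟩
    rw [hGθ]
    exact mul_ne_zero (hw.map _).ne_zero (hw'.map _).ne_zero
  have hcoef : ∀ w w' : M[X][X], w.Monic → w'.Monic → G = w * w' + C P * h →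
      (∀ m, (w.coeff m).degree < P.degree) → ∀ m, Alg E (w.coeff m) := by
    intro w w' hw hw' hGw hd m
    refine alg_interp hPs hPa (hd m) fun θ hθ => ?_
    have := key θ hθ w w' hw hw' hGw m
    rwa [coeff_map, coe_evalRingHom] at this
  have hua := hcoef u v hu hv hG hud
  have hva := hcoef v u hv hu (by rw [hG, mul_comm u v]) hvd
  intro m n
  refine ⟨hua m n, hva m n, ?_⟩
  have h1 : P * h.coeff m = G.coeff m - (u * v).coeff m := by
    rw [hG, coeff_add, coeff_C_mul]; ring
  have h2 : Alg E (P * h.coeff m) := by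
    rw [h1, coeff_mul]
    refine alg_sub (hGa m) (alg_sum _ _ fun i _ => alg_mul (hua _) (hva _))
  exact alg_of_mul hPa hP0 h2 n

end Pool.Agent.Helper79.RG
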