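import Pool.Agent.Helper55.RG.Spec4

/-!
# IRK: almost all polynomials over `k` remain irreducible over `k₁` (from IRR)
-/

set_option autoImplicit false
set_option linter.all false
set_option maxHeartbeats 4000000
set_option synthInstance.maxHeartbeats 400000

open Polynomial NumberField

namespace Pool.Agent.Helper79.RGK

open Pool.Agent.TH115.GD Pool.Agent.R939.EI Pool.Agent.Helper55.TT Pool.Agent.Helper55.UV
open Pool.Agent.R939.HI Pool.Agent.W275.UB Pool.Agent.H927R2.RD Pool.Agent.R939.PP
open Pool.Agent.Helper55.RG (S_IRR S_IRK)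

/-- if `h = minpoly β` remains irreducible over `k[X]/D`, `k₁ = k(β)`, then `D` remains irreducible
over `k₁` -/
theorem irr_ext {k k₁ : Type} [Field k] [Field k₁] [Algebra k k₁] [FiniteDimensional k k₁]
    (D : k[X]) (hD : Irreducible D) (β : k₁)
    (hgen : (minpoly k β).natDegree = Module.finrank k k₁)
    (hirr : Irreducible ((minpoly k β).map (algebraMap k (AdjoinRoot D)))) :
    Irreducible (D.map (algebraMap k k₁)) := by
  have hinj : Function.Injective (algebraMap k k₁) := (algebraMap k k₁).injective
  have hD0 : D.map (algebraMap k k₁) ≠ 0 := (Polynomial.map_ne_zero_iff hinj).2 hD.ne_zero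
  have hdeg : (D.map (algebraMap k k₁)).natDegree = D.natDegree := natDegree_map_eq_of_injective hinj D
  have hDpos : 0 < D.natDegree := hD.natDegree_pos
  have hnu : ¬ IsUnit (D.map (algebraMap k k₁)) := by
    intro h
    have := natDegree_eq_zero_of_isUnit h
    omega
  obtain ⟨f, hf, hfD⟩ := WfDvdMonoid.exists_irreducible_factor hnu hD0
  haveI : Fact (Irreducible f) := ⟨hf⟩
  haveI : Fact (Irreducible D) := ⟨hD⟩
  let L := AdjoinRoot f
  let θ : L := AdjoinRoot.root f
  have hθ : eval₂ (algebraMap k L) θ D = 0 := by
    obtain ⟨q, hq⟩ := hfD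
    have h1 : eval₂ (algebraMap k₁ L) θ (D.map (algebraMap k k₁)) = 0 := by
      rw [hq, eval₂_mul]
      have : eval₂ (algebraMap k₁ L) θ f = 0 := AdjoinRoot.eval₂_root f
      rw [this, zero_mul]
    rw [eval₂_map] at h1
    rw [IsScalarTower.algebraMap_eq k k₁ L]
    exact h1
  let j : AdjoinRoot D →+* L := AdjoinRoot.lift (algebraMap k L) θ hθ
  letI : Algebra (AdjoinRoot D) L := j.toAlgebra
  haveI : IsScalarTower k (AdjoinRoot D) L := IsScalarTower.of_algebraMap_eq (fun x => by
    show algebraMap k L x = j (AdjoinRoot.of D x)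
    exact (AdjoinRoot.lift_of hθ).symm)
  haveI : FiniteDimensional k₁ L := (AdjoinRoot.powerBasis hf.ne_zero).finite
  haveI : FiniteDimensional k (AdjoinRoot D) := (AdjoinRoot.powerBasis hD.ne_zero).finite
  haveI : FiniteDimensional k L := FiniteDimensional.trans k k₁ L
  haveI : FiniteDimensional (AdjoinRoot D) L := Module.Finite.of_restrictScalars_finite k _ _
  have e1 : Module.finrank k₁ L = f.natDegree := by
    have := (AdjoinRoot.powerBasis hf.ne_zero).finrank
    rw [AdjoinRoot.powerBasis_dim] at this
    exact this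
  have e2 : Module.finrank k (AdjoinRoot D) = D.natDegree := by
    have := (AdjoinRoot.powerBasis hD.ne_zero).finrank
    rw [AdjoinRoot.powerBasis_dim] at this
    exact this
  have e3 : Module.finrank k k₁ * Module.finrank k₁ L = Module.finrank k L :=
    Module.finrank_mul_finrank k k₁ L
  have e4 : Module.finrank k (AdjoinRoot D) * Module.finrank (AdjoinRoot D) L =
      Module.finrank k L := Module.finrank_mul_finrank k (AdjoinRoot D) L
  have hβi : IsIntegral k β := Algebra.IsIntegral.isIntegral β
  have hmin : (minpoly k β).map (algebraMap k (AdjoinRoot D)) =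
      minpoly (AdjoinRoot D) (algebraMap k₁ L β) := by
    apply minpoly.eq_of_irreducible_of_monic hirr
    · rw [aeval_def, eval₂_map, ← IsScalarTower.algebraMap_eq k (AdjoinRoot D) L, ← aeval_def,
        aeval_algebraMap_apply, minpoly.aeval, map_zero]
    · exact (minpoly.monic hβi).map _
  have e5 : (minpoly k β).natDegree ≤ Module.finrank (AdjoinRoot D) L := by
    have := minpoly.natDegree_le (A := AdjoinRoot D) (algebraMap k₁ L β)
    rw [← hmin, natDegree_map_eq_of_injective (algebraMap k (AdjoinRoot D)).injective] at this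
    exact this
  have hnpos : 0 < Module.finrank k k₁ := Module.finrank_pos
  have e6 : D.natDegree ≤ f.natDegree := by
    rw [hgen] at e5
    rw [e1] at e3
    rw [e2] at e4
    have h7 : D.natDegree * Module.finrank k k₁ ≤ Module.finrank k k₁ * f.natDegree := by
      rw [e3, ← e4]
      exact Nat.mul_le_mul_left _ e5
    rw [mul_comm] at h7
    exact Nat.le_of_mul_le_mul_left h7 hnpos
  obtain ⟨q, hq⟩ := hfD
  have hq0 : q ≠ 0 := by
    rintro rfl
    rw [mul_zero] at hq
    exact hD0 hq
  have hqd : q.natDegree = 0 := by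
    have := congrArg natDegree hq
    rw [natDegree_mul hf.ne_zero hq0, hdeg] at this
    omega
  have hqu : IsUnit q := by
    rw [Polynomial.isUnit_iff_degree_eq_zero, degree_eq_natDegree hq0, hqd]
    rfl
  rw [hq]
  exact (irreducible_mul_isUnit hqu).2 hf

theorem irk (hI : S_IRR) : S_IRK := by
  intro k k₁ _ _ _ _ _ J _ ω u n l0 hn
  haveI : FiniteDimensional k k₁ := Module.Finite.of_restrictScalars_finite ℚ k k₁
  let pb := Field.powerBasisOfFiniteOfSeparable k k₁
  let β := pb.gen
  have hβi : IsIntegral k β := Algebra.IsIntegral.isIntegral β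
  have hgen : (minpoly k β).natDegree = Module.finrank k k₁ := by
    rw [pb.natDegree_minpoly, pb.finrank]
  let h := minpoly k β
  have hmon : h.Monic := minpoly.monic hβi
  let g : k[X][X] := h.map C
  have hg : g.Monic := hmon.map _
  have hgi : Irreducible (g.map (algebraMap k[X] (FractionRing k[X]))) := by
    rw [← Polynomial.Monic.irreducible_iff_irreducible_map_fraction_map hg]
    refine Polynomial.Monic.irreducible_of_irreducible_map (evalRingHom 0) g hg ?_
    have : g.map (evalRingHom 0) = h := by
      show (h.map C).map (evalRingHom 0) = h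
      rw [Polynomial.map_map]
      have : (evalRingHom (0 : k)).comp C = RingHom.id k := by
        ext x; simp
      rw [this, Polynomial.map_id]
    rw [this]
    exact minpoly.irreducible hβi
  have h1 := hI k J ω u n l0 hn g hg hgi
  have h2 := dens_allIrr (n := n) ω l0 hn
  intro ε hε
  refine ((h1.union h2) ε hε).mono ?_
  intro x hx
  by_contra hcon
  rw [Set.mem_union, not_or] at hcon
  obtain ⟨c1, c2⟩ := hcon
  have hall : AllIrr (Dp ω x l0) := by
    by_contra h3
    exact c2 h3
  apply hx
  have hD : Irreducible (Dp ω x l0) := hall.1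
  refine irr_ext (Dp ω x l0) hD β hgen ?_
  by_contra h3
  apply c1
  refine ⟨hD, ?_⟩
  intro h4
  apply h3
  have h5 : g.map (AdjoinRoot.mk (Dp ω x l0)) =
      (minpoly k β).map (algebraMap k (AdjoinRoot (Dp ω x l0))) := by
    show (h.map C).map (AdjoinRoot.mk (Dp ω x l0)) = _
    rw [Polynomial.map_map]
    rfl
  rw [← h5]
  exact h4

end Pool.Agent.Helper79.RGK
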