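import Pool.Agent.Helper55.RG.Spec

set_option autoImplicit false
set_option linter.all false

/-! Part REG of the RG swarm (helper55): functions which are regular where `t` is regular remain so
after extension of the constants. The statement is the body of `S_REG`. -/

open Module IsDedekindDomain IntermediateField FF

namespace Pool.Agent.Helper79.RG

section

variable {k K : Type} [Field k] [Field K] [Algebra k K]

/-- a function which is regular where `t` is regular is integral over `k[t]` -/
theorem integral_of_reg [CharZero k] [IsFF k K] {t v : K} (ht : Transcendental k t)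
    (h : ∀ P : Place k K, P.Reg t → P.Reg v) : IsIntegral (Algebra.adjoin k {t}) v := by
  open scoped algebraAdjoinAdjoin in
  let A := Algebra.adjoin k {t}
  let e := Polynomial.algEquivOfTranscendental k t ht
  have hpid : IsPrincipalIdealRing A := IsPrincipalIdealRing.of_surjective e.toRingEquiv e.surjective
  have hded : IsDedekindDomain A := inferInstance
  have hfin := IsFF.finite ht
  have hchar : CharZero k⟮t⟯ := charZero_of_injective_algebraMap (algebraMap k k⟮t⟯).injective
  have hsep : Algebra.IsSeparable k⟮t⟯ K := inferInstance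
  let B := integralClosure A K
  haveI : IsDedekindDomain B := integralClosure.isDedekindDomain A k⟮t⟯ K
  haveI : IsFractionRing B K := integralClosure.isFractionRing_of_finite_extension k⟮t⟯ K
  haveI : IsScalarTower k B K := IsScalarTower.of_algebraMap_eq' rfl
  have hB : ∀ P : HeightOneSpectrum B, P.valuation K v ≤ 1 := by
    intro P
    by_cases hv : v = 0
    · rw [hv, map_zero]; exact zero_le_one
    · have h1 : (placeOf (k := k) (L := K) P).Reg t := by
        have := placeOf_reg (k := k) (L := K) P (algebraMap A B ⟨t, Algebra.self_mem_adjoin_singleton k t⟩)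
        exact this
      have h2 := h _ h1
      rw [Place.reg_iff _ hv, placeOf_nonneg P hv] at h2
      exact h2
  obtain ⟨b, hb⟩ := HeightOneSpectrum.mem_integers_of_valuation_le_one K v hB
  rw [← hb]
  exact b.2

end

theorem reg : ∀ (κ Ω N₀ N : Type) [Field κ] [CharZero κ] [Field Ω] [Algebra κ Ω] [Field N₀]
    [Algebra κ N₀] [IsFF κ N₀] [Field N] [Algebra Ω N] (t v : N₀), Transcendental κ t →
    (∀ P : Place κ N₀, P.Reg t → P.Reg v) → ∀ ψ : N₀ →+* N,
    (∀ c : κ, ψ (algebraMap κ N₀ c) = algebraMap Ω N (algebraMap κ Ω c)) →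
    ∀ P : Place Ω N, P.Reg (ψ t) → P.Reg (ψ v) := by
  intro κ Ω N₀ N _ _ _ _ _ _ _ _ _ t v ht h ψ hψ P hP
  have hint := integral_of_reg ht h
  letI : Algebra (Algebra.adjoin κ {t}) N := (ψ.comp (algebraMap (Algebra.adjoin κ {t}) N₀)).toAlgebra
  have hreg : ∀ a : Algebra.adjoin κ {t}, P.Reg (algebraMap (Algebra.adjoin κ {t}) N a) := by
    rintro ⟨a, ha⟩
    change P.Reg (ψ a)
    induction ha using Algebra.adjoin_induction with
    | mem x hx =>
      rw [Set.mem_singleton_iff] at hx
      subst hx
      exact hP
    | algebraMap r => rw [hψ]; exact P.reg_const _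
    | add x y _ _ hx hy => rw [map_add]; exact P.reg_add hx hy
    | mul x y _ _ hx hy => rw [map_mul]; exact P.reg_mul hx hy
  refine P.reg_of_isIntegral hreg ?_
  obtain ⟨p, hp, he⟩ := hint
  refine ⟨p, hp, ?_⟩
  have : algebraMap (Algebra.adjoin κ {t}) N = ψ.comp (algebraMap (Algebra.adjoin κ {t}) N₀) := rfl
  rw [this, ← Polynomial.hom_eval₂, he, map_zero]

end Pool.Agent.Helper79.RG

theorem Pool.Agent.Helper79.RG.REG.main : Pool.Agent.Helper55.RG.S_REG := Pool.Agent.Helper79.RG.reg
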