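import Mathlib

set_option autoImplicit false

/-! Part THE of the RG swarm (helper55): generic parameters such that `t` is a root of the generic
polynomial. The statement is the body of `S_THE`. -/

open Polynomial

namespace Pool.Agent.Helper79.RG

section

variable {k Q : Type} [Field k]

/-- a nonconstant polynomial over a domain is a root of no nonzero polynomial -/
lemma eval2_C_ne {S : Type} [CommRing S] [IsDomain S] (p v : S[X]) (hp : p ≠ 0)
    (m : ℕ) (hm : 1 ≤ m) (hv : v.coeff m ≠ 0) : eval₂ C v p ≠ 0 := by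
  intro h
  have h1 : p.comp v = 0 := h
  rw [Polynomial.comp_eq_zero_iff] at h1
  rcases h1 with h1 | ⟨_, h2⟩
  · exact hp h1
  · rw [h2, coeff_C, if_neg (by omega)] at hv
    exact hv rfl

/-- substituting a nonconstant polynomial in `T` for one variable gives an injective map -/
lemma subst_inj [DecidableEq Q] (q0 : Q) (v : (MvPolynomial Q k)[X]) (m : ℕ) (hm : 1 ≤ m)
    (hv : v.coeff m ≠ 0) :
    Function.Injective (MvPolynomial.aeval
      (fun q : Q => if q = q0 then v else (C (MvPolynomial.X q : MvPolynomial Q k))) :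
      MvPolynomial Q k →ₐ[k] (MvPolynomial Q k)[X]) := by
  rw [← algebraicIndependent_iff_injective_aeval]
  let x : {q : Q // q ≠ q0} → (MvPolynomial Q k)[X] := fun q => C (MvPolynomial.X q.1)
  have hx : AlgebraicIndependent k x := by
    have h1 : AlgebraicIndependent k (MvPolynomial.X : Q → MvPolynomial Q k) :=
      MvPolynomial.algebraicIndependent_X Q k
    have h2 : AlgebraicIndependent k (fun q : {q : Q // q ≠ q0} =>
        (MvPolynomial.X q.1 : MvPolynomial Q k)) := h1.comp _ Subtype.val_injective
    exact h2.map' (f := (CAlgHom : MvPolynomial Q k →ₐ[k] (MvPolynomial Q k)[X])) C_injective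
  have hopt : AlgebraicIndependent k (fun o : Option {q : Q // q ≠ q0} => o.elim v x) := by
    rw [hx.option_iff_transcendental]
    -- transcendence
    have hB : ∀ b ∈ Algebra.adjoin k (Set.range x), C (b.coeff 0) = b := by
      intro b hb
      have hle : Algebra.adjoin k (Set.range x) ≤
          (CAlgHom : MvPolynomial Q k →ₐ[k] (MvPolynomial Q k)[X]).range := by
        apply Algebra.adjoin_le
        rintro _ ⟨q, rfl⟩
        exact ⟨MvPolynomial.X q.1, rfl⟩
      obtain ⟨s, hs⟩ := hle hb
      have hs' : b = C s := hs.symm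
      rw [hs', coeff_C_zero]
    let ρ : Algebra.adjoin k (Set.range x) →+* MvPolynomial Q k :=
      (constantCoeff : (MvPolynomial Q k)[X] →+* MvPolynomial Q k).comp
        (Algebra.adjoin k (Set.range x)).val.toRingHom
    have hρ : ∀ b : Algebra.adjoin k (Set.range x), C (ρ b) = (b : (MvPolynomial Q k)[X]) :=
      fun b => hB b.1 b.2
    have hρi : Function.Injective ρ := by
      intro a b hab
      have := congrArg (C : MvPolynomial Q k → (MvPolynomial Q k)[X]) hab
      rw [hρ, hρ] at this
      exact Subtype.ext this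
    rintro ⟨p, hp0, hp⟩
    refine eval2_C_ne (p.map ρ) v ((Polynomial.map_ne_zero_iff hρi).2 hp0) m hm hv ?_
    rw [eval₂_map]
    have : (C : MvPolynomial Q k →+* (MvPolynomial Q k)[X]).comp ρ =
        algebraMap (Algebra.adjoin k (Set.range x)) ((MvPolynomial Q k)[X]) := by
      ext1 b
      exact hρ b
    rw [this, ← aeval_def]
    exact hp
  have he := (algebraicIndependent_equiv (R := k) (Equiv.optionSubtypeNe q0).symm).2 hopt
  convert he using 1
  funext q
  by_cases hq : q = q0
  · subst hq
    simp
  · simp [hq, x, Equiv.optionSubtypeNe_symm_of_ne hq]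

/-- the ring `k[X_q][T]` inside the rational functions in `X_q` over `k(t)` -/
noncomputable def psi0 (k Q : Type) [Field k] :
    (MvPolynomial Q k)[X] →+* MvPolynomial Q (FractionRing k[X]) :=
  eval₂RingHom (MvPolynomial.map ((algebraMap k[X] (FractionRing k[X])).comp C))
    (MvPolynomial.C (algebraMap k[X] (FractionRing k[X]) X))

lemma psi0_coeff (g : (MvPolynomial Q k)[X]) (d : Q →₀ ℕ) :
    MvPolynomial.coeff d (psi0 k Q g) = algebraMap k[X] (FractionRing k[X])
      (∑ n ∈ g.support, monomial n (MvPolynomial.coeff d (g.coeff n))) := by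
  unfold psi0
  rw [coe_eval₂RingHom, eval₂_eq_sum, Polynomial.sum, MvPolynomial.coeff_sum, map_sum]
  refine Finset.sum_congr rfl fun n _ => ?_
  rw [← map_pow, mul_comm, MvPolynomial.coeff_C_mul, MvPolynomial.coeff_map,
    ← C_mul_X_pow_eq_monomial, map_mul, map_pow, RingHom.comp_apply, mul_comm]

lemma psi0_inj : Function.Injective (psi0 k Q) := by
  rw [injective_iff_map_eq_zero]
  intro g hg
  ext1 n
  ext1 d
  have h1 := psi0_coeff g d
  rw [hg, MvPolynomial.coeff_zero] at h1
  have h2 : ∑ n ∈ g.support, monomial n (MvPolynomial.coeff d (g.coeff n)) = 0 := by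
    apply IsFractionRing.injective k[X] (FractionRing k[X])
    rw [← h1, map_zero]
  have h3 := congrArg (fun p : k[X] => p.coeff n) h2
  simp only [finsetSum_coeff, coeff_monomial, coeff_zero, Finset.sum_ite_eq'] at h3
  rw [coeff_zero, MvPolynomial.coeff_zero]
  by_cases hn : n ∈ g.support
  · rw [if_pos hn] at h3
    exact h3
  · rw [notMem_support_iff.1 hn, MvPolynomial.coeff_zero]

end

theorem the : ∀ (k O ι J : Type) [Field k] [CommRing O] [IsDomain O] [Algebra O k]
    [FaithfulSMul O k] [Fintype J] (ω : J → O) (j0 : J), ω j0 ≠ 0 →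
    ∀ (m : ℕ) (e : Fin (m + 1) → ι), 1 ≤ m → Function.Injective e →
    ∃ Θ : MvPolynomial (ι × J) O →+* FractionRing (MvPolynomial (ι × J) (FractionRing k[X])),
      Function.Injective Θ ∧
      (∀ o : O, Θ (MvPolynomial.C o) = algebraMap (MvPolynomial (ι × J) (FractionRing k[X])) _
        (MvPolynomial.C (algebraMap k[X] (FractionRing k[X]) (C (algebraMap O k o))))) ∧
      ∑ i : Fin (m + 1), (∑ j, Θ (MvPolynomial.X (e i, j)) * Θ (MvPolynomial.C (ω j))) *
        (algebraMap (MvPolynomial (ι × J) (FractionRing k[X])) _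
          (MvPolynomial.C (algebraMap k[X] (FractionRing k[X]) X))) ^ (i : ℕ) = 0 := by
  classical
  intro k O ι J _ _ _ _ _ _ ω j0 hω m e hm he
  let Q := ι × J
  let q0 : Q := (e 0, j0)
  let w : J → k := fun j => algebraMap O k (ω j)
  have hw0 : w j0 ≠ 0 := by
    intro h
    exact hω ((FaithfulSMul.algebraMap_injective O k) (by rw [map_zero]; exact h))
  -- the terms
  let term : Fin (m + 1) → J → (MvPolynomial Q k)[X] := fun i j =>
    C (MvPolynomial.X (e i, j) * MvPolynomial.C (w j)) * X ^ (i : ℕ)
  let W : (MvPolynomial Q k)[X] := ∑ i : Fin (m + 1), ∑ j, if i = 0 ∧ j = j0 then 0 else term i j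
  let v : (MvPolynomial Q k)[X] := -(C (MvPolynomial.C (w j0)⁻¹) * W)
  let a : Q → (MvPolynomial Q k)[X] := fun q =>
    if q = q0 then v else (C (MvPolynomial.X q : MvPolynomial Q k))
  have hcoefW : W.coeff m = ∑ j, MvPolynomial.X (e (Fin.last m), j) * MvPolynomial.C (w j) := by
    show (∑ i : Fin (m + 1), ∑ j, if i = 0 ∧ j = j0 then 0 else term i j).coeff m = _
    rw [finsetSum_coeff, Finset.sum_eq_single (Fin.last m)]
    · rw [finsetSum_coeff]
      refine Finset.sum_congr rfl fun j _ => ?_
      rw [if_neg]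
      · simp only [term, Fin.val_last]
        rw [coeff_C_mul, coeff_X_pow, if_pos rfl, mul_one]
      · rintro ⟨h, _⟩
        have := congrArg Fin.val h
        simp at this
        omega
    · intro i _ hi
      rw [finsetSum_coeff]
      refine Finset.sum_eq_zero fun j _ => ?_
      split_ifs
      · simp
      · simp only [term, coeff_C_mul, coeff_X_pow]
        rw [if_neg, mul_zero]
        intro h
        apply hi
        ext
        simp [h.symm]
    · intro h; exact absurd (Finset.mem_univ _) h
  have hv : v.coeff m ≠ 0 := by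
    show (-(C (MvPolynomial.C (w j0)⁻¹) * W)).coeff m ≠ 0
    rw [coeff_neg, coeff_C_mul, hcoefW, neg_ne_zero]
    refine mul_ne_zero ?_ ?_
    · rw [Ne, MvPolynomial.C_eq_zero]
      exact inv_ne_zero hw0
    · intro h
      have h1 := congrArg (MvPolynomial.coeff (Finsupp.single (e (Fin.last m), j0) 1)) h
      rw [MvPolynomial.coeff_sum, MvPolynomial.coeff_zero, Finset.sum_eq_single j0] at h1
      · rw [mul_comm, MvPolynomial.coeff_C_mul, MvPolynomial.coeff_X, if_pos rfl, mul_one] at h1
        exact hw0 h1
      · intro j _ hj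
        rw [mul_comm, MvPolynomial.coeff_C_mul, MvPolynomial.coeff_X, if_neg, mul_zero]
        intro h2
        have := Finsupp.single_left_injective (one_ne_zero) h2
        exact hj (congrArg Prod.snd this)
      · intro h; exact absurd (Finset.mem_univ _) h
  have hainj := subst_inj q0 v m hm hv
  let Θ1 : MvPolynomial Q O →+* MvPolynomial Q k := MvPolynomial.map (algebraMap O k)
  let Θ2 : MvPolynomial Q k →ₐ[k] (MvPolynomial Q k)[X] := MvPolynomial.aeval a
  let Fr := FractionRing (MvPolynomial Q (FractionRing k[X]))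
  let Ψ : (MvPolynomial Q k)[X] →+* Fr :=
    (algebraMap (MvPolynomial Q (FractionRing k[X])) Fr).comp (psi0 k Q)
  have hΨi : Function.Injective Ψ :=
    (IsFractionRing.injective (MvPolynomial Q (FractionRing k[X])) Fr).comp psi0_inj
  have hΨC : ∀ c : k, Ψ (C (MvPolynomial.C c)) =
      algebraMap (MvPolynomial Q (FractionRing k[X])) Fr
        (MvPolynomial.C (algebraMap k[X] (FractionRing k[X]) (C c))) := by
    intro c
    simp [Ψ, psi0]
  have hΨX : Ψ X = algebraMap (MvPolynomial Q (FractionRing k[X])) Fr
        (MvPolynomial.C (algebraMap k[X] (FractionRing k[X]) X)) := by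
    simp [Ψ, psi0]
  have hΘ1C : ∀ o : O, Θ2 (Θ1 (MvPolynomial.C o)) = C (MvPolynomial.C (algebraMap O k o)) := by
    intro o
    simp only [Θ1, Θ2, MvPolynomial.map_C, MvPolynomial.aeval_C]
    rfl
  have hΘX : ∀ q, Θ2 (Θ1 (MvPolynomial.X q)) = a q := by
    intro q
    simp only [Θ1, Θ2, MvPolynomial.map_X, MvPolynomial.aeval_X]
  refine ⟨Ψ.comp (Θ2.toRingHom.comp Θ1), ?_, ?_, ?_⟩
  · refine hΨi.comp (hainj.comp (MvPolynomial.map_injective _ ?_))
    exact FaithfulSMul.algebraMap_injective O k
  · intro o
    show Ψ (Θ2 (Θ1 (MvPolynomial.C o))) = _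
    rw [hΘ1C, hΨC]
  · have key : ∑ i : Fin (m + 1), (∑ j, a (e i, j) * C (MvPolynomial.C (w j))) * X ^ (i : ℕ) = 0 := by
      have h1 : ∀ i j, a (e i, j) * C (MvPolynomial.C (w j)) * X ^ (i : ℕ) =
          (if i = 0 ∧ j = j0 then 0 else term i j) +
            (if i = 0 ∧ j = j0 then v * C (MvPolynomial.C (w j0)) else 0) := by
        intro i j
        by_cases h : i = 0 ∧ j = j0
        · obtain ⟨rfl, rfl⟩ := h
          simp [a, q0]
        · rw [if_neg h, if_neg h, add_zero]
          have hne : (e i, j) ≠ q0 := by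
            intro h2
            apply h
            refine ⟨he ?_, ?_⟩
            · exact congrArg Prod.fst h2
            · exact congrArg Prod.snd h2
          simp only [a, if_neg hne, term]
          rw [← C_mul]
      have h2 : ∑ i : Fin (m + 1), (∑ j, a (e i, j) * C (MvPolynomial.C (w j))) * X ^ (i : ℕ) =
          W + v * C (MvPolynomial.C (w j0)) := by
        simp_rw [Finset.sum_mul, h1, Finset.sum_add_distrib]
        congr 1
        rw [Finset.sum_eq_single 0]
        · rw [Finset.sum_eq_single j0]
          · simp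
          · intro j _ hj
            rw [if_neg]
            rintro ⟨_, h⟩
            exact hj h
          · intro h; exact absurd (Finset.mem_univ _) h
        · intro i _ hi
          refine Finset.sum_eq_zero fun j _ => ?_
          rw [if_neg]
          rintro ⟨h, _⟩
          exact hi h
        · intro h; exact absurd (Finset.mem_univ _) h
      rw [h2]
      have h3 : C (MvPolynomial.C (w j0)⁻¹) * C (MvPolynomial.C (w j0)) =
          (1 : (MvPolynomial Q k)[X]) := by
        rw [← C_mul, ← MvPolynomial.C_mul, inv_mul_cancel₀ hw0, MvPolynomial.C_1, C_1]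
      show W + -(C (MvPolynomial.C (w j0)⁻¹) * W) * C (MvPolynomial.C (w j0)) = 0
      linear_combination (-W) * h3
    have h4 := congrArg Ψ key
    rw [map_zero, map_sum] at h4
    rw [← h4]
    refine Finset.sum_congr rfl fun i _ => ?_
    rw [map_mul, map_pow, hΨX, map_sum]
    congr 1
    refine Finset.sum_congr rfl fun j _ => ?_
    rw [map_mul]
    show Ψ (Θ2 (Θ1 (MvPolynomial.X (e i, j)))) * Ψ (Θ2 (Θ1 (MvPolynomial.C (ω j)))) = _
    rw [hΘX, hΘ1C]

end Pool.Agent.Helper79.RG
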