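import Mathlib

set_option autoImplicit false

/-! Part THN of the RG swarm (helper55): generic parameters such that the generic polynomial of
degree `m` has `m` generic roots. The statement is the body of `S_THN`. -/

open Polynomial

namespace Pool.Agent.Helper79.RGN

section sq

variable {k A : Type} [Field k] [CommRing A] [IsDomain A]

/-- `S(t_l) S(t_l')` is not a square for squarefree nonconstant `S` -/
lemma not_sq [CharZero k] (ι0 : k →+* A) (ev : A →+* k) (hev : ev.comp ι0 = RingHom.id k) (m : ℕ)
    (S : k[X]) (hm : S.Monic) (hS : Squarefree S) (h1 : S ≠ 1) (l l' : Fin m) (hne : l ≠ l')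
    (z : MvPolynomial (Fin m) A)
    (hz : z * z = eval₂ ((MvPolynomial.C : A →+* MvPolynomial (Fin m) A).comp ι0)
      (MvPolynomial.X l) S * eval₂ ((MvPolynomial.C : A →+* MvPolynomial (Fin m) A).comp ι0)
      (MvPolynomial.X l') S) : False := by
  classical
  let K := AlgebraicClosure k
  have hinj : Function.Injective ι0 := by
    intro x y hxy
    have := congrArg ev hxy
    rw [← RingHom.comp_apply, ← RingHom.comp_apply, hev] at this
    exact this
  have : CharZero A := by
    refine ⟨fun a b hab => ?_⟩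
    have h := congrArg ev hab
    rw [map_natCast, map_natCast] at h
    exact Nat.cast_injective h
  have hdeg : S.degree ≠ 0 := by
    intro h
    exact h1 (Polynomial.eq_one_of_monic_natDegree_zero hm (natDegree_eq_of_degree_eq_some h))
  obtain ⟨α, hα⟩ := IsAlgClosed.exists_eval₂_eq_zero (algebraMap k K) S hdeg
  let P : A[X] := S.map ι0
  have hP : ∀ i : Fin m, aeval (MvPolynomial.X i : MvPolynomial (Fin m) A) P =
      eval₂ ((MvPolynomial.C : A →+* MvPolynomial (Fin m) A).comp ι0) (MvPolynomial.X i) S := by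
    intro i
    rw [aeval_def, eval₂_map]
    rfl
  rw [← hP, ← hP] at hz
  -- specialisation
  let ρ : MvPolynomial (Fin m) A →+* K[X] :=
    MvPolynomial.eval₂Hom ((C : K →+* K[X]).comp ((algebraMap k K).comp ev))
      (fun i => if i = l then C α else X)
  have hρ : ∀ i : Fin m, ρ (aeval (MvPolynomial.X i : MvPolynomial (Fin m) A) P) =
      eval₂ ((C : K →+* K[X]).comp (algebraMap k K)) (if i = l then C α else X) S := by
    intro i
    rw [hP, hom_eval₂]
    congr 1
    · ext x
      have h2 : ev (ι0 x) = x := by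
        rw [← RingHom.comp_apply, hev]; rfl
      simp [ρ, h2]
    · simp [ρ]
  have hρl : ρ (aeval (MvPolynomial.X l : MvPolynomial (Fin m) A) P) = 0 := by
    rw [hρ, if_pos rfl, ← hom_eval₂, hα, map_zero]
  have hρl' : ρ (aeval (MvPolynomial.X l' : MvPolynomial (Fin m) A) P) ≠ 0 := by
    rw [hρ, if_neg (Ne.symm hne), ← eval₂_map, eval₂_C_X]
    exact (hm.map _).ne_zero
  have hne' : aeval (MvPolynomial.X l' : MvPolynomial (Fin m) A) P ≠ 0 := by
    intro h
    rw [h, map_zero] at hρl'
    exact hρl' rfl
  -- derivative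
  have hcop : IsCoprime P (derivative P) := by
    have h2 : IsCoprime S (derivative S) := PerfectField.separable_iff_squarefree.2 hS
    have h3 := h2.map (mapRingHom ι0)
    rw [coe_mapRingHom, ← derivative_map] at h3
    exact h3
  obtain ⟨a, b, hab⟩ := hcop
  let F : A[X] →ₐ[A] MvPolynomial (Fin m) A := aeval (MvPolynomial.X l)
  have hab' : F a * F P + F b * F (derivative P) = 1 := by
    rw [← map_mul, ← map_mul, ← map_add, hab, map_one]
  let D := MvPolynomial.pderiv (R := A) l
  have hD1 : D (F P) = F (derivative P) := by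
    show D (aeval _ P) = aeval _ (derivative P)
    rw [Derivation.map_aeval]
    simp [D]
  have hD2 : D (aeval (MvPolynomial.X l' : MvPolynomial (Fin m) A) P) = 0 := by
    rw [Derivation.map_aeval]
    simp [D, MvPolynomial.pderiv_X_of_ne hne.symm]
  have h4 : D (z * z) = F (derivative P) *
      aeval (MvPolynomial.X l' : MvPolynomial (Fin m) A) P := by
    rw [hz, Derivation.leibniz, hD2, smul_zero, zero_add, smul_eq_mul]
    show _ * D (F P) = _
    rw [hD1, mul_comm]
  rw [Derivation.leibniz, smul_eq_mul] at h4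
  have h5 : F P * (2 * D z) = z * F (derivative P) := by
    apply mul_right_cancel₀ hne'
    have hz' : z * z = F P * aeval (MvPolynomial.X l' : MvPolynomial (Fin m) A) P := hz
    linear_combination z * h4 - (2 * D z) * hz'
  have h6 : z = F P * (z * F a + F b * (2 * D z)) := by
    linear_combination (-z) * hab' - F b * h5
  have h7 : F P * (F P * (z * F a + F b * (2 * D z)) ^ 2 -
      aeval (MvPolynomial.X l' : MvPolynomial (Fin m) A) P) = 0 := by
    have hz' : z * z = F P * aeval (MvPolynomial.X l' : MvPolynomial (Fin m) A) P := hz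
    have h8 : z * z = (F P * (z * F a + F b * (2 * D z))) * (F P * (z * F a + F b * (2 * D z))) := by
      rw [← h6]
    linear_combination hz' - h8
  have hFP : F P ≠ 0 := by
    intro h
    have h9 := congrArg (MvPolynomial.rename (Equiv.swap l l')) h
    have h10 : MvPolynomial.rename (Equiv.swap l l') (F P) =
        aeval (MvPolynomial.X l' : MvPolynomial (Fin m) A) P := by
      show MvPolynomial.rename (Equiv.swap l l') (aeval (MvPolynomial.X l) P) = _
      rw [← aeval_algHom_apply, MvPolynomial.rename_X, Equiv.swap_apply_left]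
    rw [h10, map_zero] at h9
    exact hne' h9
  have h11 := (mul_eq_zero.1 h7).resolve_left hFP
  have h12 := congrArg ρ h11
  rw [map_sub, map_mul, map_zero] at h12
  have h13 : ρ (F P) = 0 := hρl
  rw [h13, zero_mul, zero_sub, neg_eq_zero] at h12
  exact hρl' h12

end sq

section par

variable {k Q : Type} [Field k] {m : ℕ}

/-- the values of the parameters, given the elementary symmetric functions `y` -/
noncomputable def par (g : Fin m → Q) (c0 : k) (cm : MvPolynomial Q k)
    (W : Fin m → MvPolynomial Q k) (R : Type) [CommRing R] [Algebra (MvPolynomial Q k) R]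
    (y : Fin m → R) (q : Q) : R :=
  Function.extend g (fun i => algebraMap (MvPolynomial Q k) R (MvPolynomial.C c0) *
    (algebraMap (MvPolynomial Q k) R cm * (-1) ^ ((Fin.rev i : ℕ) + 1) * y (Fin.rev i) -
      algebraMap (MvPolynomial Q k) R (W i)))
    (fun q => algebraMap (MvPolynomial Q k) R (MvPolynomial.X q)) q

variable (g : Fin m → Q) (c0 : k) (cm : MvPolynomial Q k) (W : Fin m → MvPolynomial Q k)

lemma par_map {R R' : Type} [CommRing R] [Algebra (MvPolynomial Q k) R] [CommRing R']
    [Algebra (MvPolynomial Q k) R'] (y : Fin m → R) (f : R →ₐ[MvPolynomial Q k] R')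
    (hg : Function.Injective g) (q : Q) :
    f (par g c0 cm W R y q) = par g c0 cm W R' (fun i => f (y i)) q := by
  unfold par
  by_cases h : ∃ i, g i = q
  · obtain ⟨i, rfl⟩ := h
    rw [hg.extend_apply, hg.extend_apply, map_mul, map_sub, map_mul, map_mul, f.commutes,
      f.commutes, f.commutes, map_pow, map_neg, map_one]
  · rw [Function.extend_apply' _ _ _ h, Function.extend_apply' _ _ _ h, f.commutes]

/-- the specialisation map -/
noncomputable def spec (R : Type) [CommRing R] [Algebra (MvPolynomial Q k) R]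
    (y : Fin m → R) : MvPolynomial Q k →+* R :=
  MvPolynomial.eval₂Hom ((algebraMap (MvPolynomial Q k) R).comp MvPolynomial.C)
    (par g c0 cm W R y)

lemma spec_C {R : Type} [CommRing R] [Algebra (MvPolynomial Q k) R] (y : Fin m → R) (c : k) :
    spec g c0 cm W R y (MvPolynomial.C c) =
      algebraMap (MvPolynomial Q k) R (MvPolynomial.C c) := by
  simp [spec]

lemma spec_X {R : Type} [CommRing R] [Algebra (MvPolynomial Q k) R] (y : Fin m → R) (q : Q) :
    spec g c0 cm W R y (MvPolynomial.X q) = par g c0 cm W R y q := by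
  simp [spec]

lemma spec_map {R R' : Type} [CommRing R] [Algebra (MvPolynomial Q k) R] [CommRing R']
    [Algebra (MvPolynomial Q k) R'] (y : Fin m → R) (f : R →ₐ[MvPolynomial Q k] R')
    (hg : Function.Injective g) (p : MvPolynomial Q k) :
    f (spec g c0 cm W R y p) = spec g c0 cm W R' (fun i => f (y i)) p := by
  have h : (f.toRingHom).comp (spec g c0 cm W R y) = spec g c0 cm W R' (fun i => f (y i)) := by
    apply MvPolynomial.ringHom_ext
    · intro r
      simp [spec]
    · intro q
      simp only [spec, RingHom.comp_apply, MvPolynomial.coe_eval₂Hom, MvPolynomial.eval₂_X]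
      exact par_map g c0 cm W y f hg q
  exact RingHom.congr_fun h p

lemma aux4 {F : Type} [Field F] (a s x : F) (ha : a ≠ 0) : a * s * (s * (x / a)) = s * s * x := by
  field_simp

lemma spec_inj_X (hg : Function.Injective g) (hc0 : c0 ≠ 0) (hcm : cm ≠ 0) :
    Function.Injective (spec g c0 cm W (MvPolynomial (Fin m) (MvPolynomial Q k))
      (fun i => MvPolynomial.X i)) := by
  let Fr := FractionRing (MvPolynomial Q k)
  let al := algebraMap (MvPolynomial Q k) Fr
  have hal : Function.Injective al := IsFractionRing.injective (MvPolynomial Q k) Fr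
  let y0 : Fin m → Fr := fun i => (-1) ^ ((i : ℕ) + 1) *
    (al (MvPolynomial.C c0⁻¹ * MvPolynomial.X (g (Fin.rev i)) + W (Fin.rev i)) / al cm)
  have hcm' : al cm ≠ 0 := by
    intro h
    exact hcm (hal (by rw [h, map_zero]))
  have h1 : spec g c0 cm W Fr y0 = al := by
    apply MvPolynomial.ringHom_ext
    · intro r
      simp [spec, al]
    · intro q
      simp only [spec, MvPolynomial.coe_eval₂Hom, MvPolynomial.eval₂_X]
      unfold par
      by_cases h : ∃ i, g i = q
      · obtain ⟨i, rfl⟩ := h
        rw [hg.extend_apply]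
        simp only [y0, Fin.rev_rev]
        have h2 : ((-1 : Fr) ^ ((Fin.rev i : ℕ) + 1)) * (-1 : Fr) ^ ((Fin.rev i : ℕ) + 1) = 1 := by
          rw [← mul_pow]; norm_num
        have h3 : al (MvPolynomial.C c0) * al (MvPolynomial.C c0⁻¹) = 1 := by
          rw [← map_mul, ← MvPolynomial.C_mul, mul_inv_cancel₀ hc0, MvPolynomial.C_1, map_one]
        show al (MvPolynomial.C c0) * (al cm * (-1) ^ ((Fin.rev i : ℕ) + 1) *
          ((-1) ^ ((Fin.rev i : ℕ) + 1) * (al _ / al cm)) - al (W i)) = al (MvPolynomial.X (g i))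
        rw [map_add, map_mul]
        rw [aux4 _ _ _ hcm', h2, one_mul, add_sub_cancel_right, ← mul_assoc, h3, one_mul]
      · rw [Function.extend_apply' _ _ _ h]
  intro p p' hpp
  let f : MvPolynomial (Fin m) (MvPolynomial Q k) →ₐ[MvPolynomial Q k] Fr := MvPolynomial.aeval y0
  have h5 := congrArg f hpp
  rw [spec_map g c0 cm W _ f hg, spec_map g c0 cm W _ f hg] at h5
  have h6 : (fun i => f ((fun i => MvPolynomial.X i : Fin m → MvPolynomial (Fin m)
      (MvPolynomial Q k)) i)) = y0 := by
    funext i
    simp [f]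
  rw [h6, h1] at h5
  exact hal h5

lemma spec_inj_esymm (hg : Function.Injective g) (hc0 : c0 ≠ 0) (hcm : cm ≠ 0) :
    Function.Injective (spec g c0 cm W (MvPolynomial (Fin m) (MvPolynomial Q k))
      (fun i => MvPolynomial.esymm (Fin m) (MvPolynomial Q k) (i + 1))) := by
  let f : MvPolynomial (Fin m) (MvPolynomial Q k) →ₐ[MvPolynomial Q k]
    MvPolynomial (Fin m) (MvPolynomial Q k) :=
    MvPolynomial.aeval (fun i : Fin m => MvPolynomial.esymm (Fin m) (MvPolynomial Q k) (i + 1))
  have hf : Function.Injective f := by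
    have h1 := MvPolynomial.esymmAlgHom_injective (σ := Fin m) (MvPolynomial Q k) (n := m)
      (by simp)
    intro p p' hp
    apply h1
    apply Subtype.ext
    rw [MvPolynomial.esymmAlgHom_apply, MvPolynomial.esymmAlgHom_apply]
    exact hp
  intro p p' hpp
  apply spec_inj_X g c0 cm W hg hc0 hcm
  apply hf
  rw [spec_map g c0 cm W _ f hg, spec_map g c0 cm W _ f hg]
  have h6 : (fun i => f ((fun i => MvPolynomial.X i : Fin m → MvPolynomial (Fin m)
      (MvPolynomial Q k)) i)) =
      (fun i : Fin m => MvPolynomial.esymm (Fin m) (MvPolynomial Q k) (i + 1)) := by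
    funext i
    simp [f]
  rw [h6]
  exact hpp

/-- Vieta -/
lemma vieta (A : Type) [CommRing A] (m : ℕ) (l : Fin m) :
    (∑ i : Fin m, (-1) ^ ((Fin.rev i : ℕ) + 1) * MvPolynomial.esymm (Fin m) A ((Fin.rev i : ℕ) + 1) *
      (MvPolynomial.X l : MvPolynomial (Fin m) A) ^ (i : ℕ)) +
      (MvPolynomial.X l : MvPolynomial (Fin m) A) ^ m = 0 := by
  have h1 := Multiset.prod_X_sub_X_eq_sum_esymm
    (Finset.univ.val.map (fun i : Fin m => (MvPolynomial.X i : MvPolynomial (Fin m) A)))
  have h2 := congrArg (Polynomial.eval (MvPolynomial.X l : MvPolynomial (Fin m) A)) h1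
  rw [Multiset.map_map] at h2
  have h3 : Polynomial.eval (MvPolynomial.X l : MvPolynomial (Fin m) A)
      (Multiset.map ((fun t => X - C t) ∘ fun i : Fin m =>
        (MvPolynomial.X i : MvPolynomial (Fin m) A)) Finset.univ.val).prod = 0 := by
    have : (Multiset.map ((fun t => X - C t) ∘ fun i : Fin m =>
        (MvPolynomial.X i : MvPolynomial (Fin m) A)) Finset.univ.val).prod =
        ∏ i : Fin m, (X - C (MvPolynomial.X i : MvPolynomial (Fin m) A)) := rfl
    rw [this, Polynomial.eval_prod]
    apply Finset.prod_eq_zero (Finset.mem_univ l)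
    simp
  rw [h3, Polynomial.eval_finsetSum] at h2
  have hcard : Multiset.card (Finset.univ.val.map
      (fun i : Fin m => (MvPolynomial.X i : MvPolynomial (Fin m) A))) = m := by simp
  rw [hcard, Finset.sum_range_succ'] at h2
  have hes : ∀ j, (Finset.univ.val.map
      (fun i : Fin m => (MvPolynomial.X i : MvPolynomial (Fin m) A))).esymm j =
      MvPolynomial.esymm (Fin m) A j := by
    intro j
    have := congrFun (MvPolynomial.esymm_eq_multiset_esymm (σ := Fin m) (R := A)) j
    exact this.symm
  simp only [hes, eval_mul, eval_pow, eval_neg, eval_one, eval_C, eval_X, pow_zero, one_mul,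
    MvPolynomial.esymm_zero, Nat.sub_zero] at h2
  rw [h2]
  congr 1
  rw [Finset.sum_range]
  refine Fintype.sum_equiv Fin.revPerm _ _ fun i => ?_
  rw [Fin.revPerm_apply]
  have h4 : m - ((Fin.rev i : ℕ) + 1) = (i : ℕ) := by
    have := Fin.val_rev i
    have := i.2
    omega
  rw [h4, mul_assoc]

end par

theorem thn : ∀ (k O ι J : Type) [Field k] [CharZero k] [CommRing O] [IsDomain O] [Algebra O k]
  [FaithfulSMul O k] [Fintype J] (ω : J → O) (j0 : J), ω j0 ≠ 0 → ∀ (m : ℕ) (e : Fin (m + 1) → ι),
  1 ≤ m → Function.Injective e →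
  ∃ (M : Type) (_ : Field M) (φ : k →+* M) (Θ : MvPolynomial (ι × J) O →+* M) (t : Fin m → M),
    Function.Injective Θ ∧ (∀ o : O, Θ (MvPolynomial.C o) = φ (algebraMap O k o)) ∧
    Function.Injective t ∧
    (∀ l : Fin m, ∑ i : Fin (m + 1), (∑ j, Θ (MvPolynomial.X (e i, j)) * Θ (MvPolynomial.C (ω j))) *
      (t l) ^ (i : ℕ) = 0) ∧
    (∀ p : Equiv.Perm (Fin m), ∃ σ : M ≃+* M, (∀ x, σ (Θ x) = Θ x) ∧ ∀ l, σ (t l) = t (p l)) ∧
    ∀ S : k[X], S.Monic → Squarefree S → S ≠ 1 → ∀ l l' : Fin m, l ≠ l' →
      ¬ IsSquare (eval₂ φ (t l) S * eval₂ φ (t l') S) := by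
  classical
  intro k O ι J _ _ _ _ _ _ _ ω j0 hω m e hm he
  let Q := ι × J
  let A := MvPolynomial Q k
  let R := MvPolynomial (Fin m) A
  let w : J → k := fun j => algebraMap O k (ω j)
  have hw0 : w j0 ≠ 0 := by
    intro h
    exact hω ((FaithfulSMul.algebraMap_injective O k) (by rw [map_zero]; exact h))
  let g : Fin m → Q := fun i => (e i.castSucc, j0)
  have hg : Function.Injective g := by
    intro i i' h
    exact Fin.castSucc_injective _ (he (congrArg Prod.fst h))
  let cm : A := ∑ j, MvPolynomial.X (e (Fin.last m), j) * MvPolynomial.C (w j)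
  have hcm : cm ≠ 0 := by
    intro h
    have h1 := congrArg (MvPolynomial.coeff (Finsupp.single (e (Fin.last m), j0) 1)) h
    rw [MvPolynomial.coeff_sum, MvPolynomial.coeff_zero, Finset.sum_eq_single j0] at h1
    · rw [mul_comm, MvPolynomial.coeff_C_mul, MvPolynomial.coeff_X, if_pos rfl, mul_one] at h1
      exact hw0 h1
    · intro j _ hj
      rw [mul_comm, MvPolynomial.coeff_C_mul, MvPolynomial.coeff_X, if_neg, mul_zero]
      intro h2
      have := Finsupp.single_left_injective (one_ne_zero) h2
      exact hj (congrArg Prod.snd this)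
    · intro h; exact absurd (Finset.mem_univ _) h
  let W : Fin m → A := fun i => ∑ j, if j = j0 then 0 else
    MvPolynomial.X (e i.castSucc, j) * MvPolynomial.C (w j)
  let es : Fin m → R := fun i => MvPolynomial.esymm (Fin m) A (i + 1)
  let Θ2 : A →+* R := spec g (w j0)⁻¹ cm W R es
  have hΘ2 : Function.Injective Θ2 :=
    spec_inj_esymm g (w j0)⁻¹ cm W hg (inv_ne_zero hw0) hcm
  let Θ1 : MvPolynomial Q O →+* A := MvPolynomial.map (algebraMap O k)
  have hΘ1 : Function.Injective Θ1 :=
    MvPolynomial.map_injective _ (FaithfulSMul.algebraMap_injective O k)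
  let M := FractionRing R
  let al : R →+* M := algebraMap R M
  have hal : Function.Injective al := IsFractionRing.injective R M
  let ι0 : k →+* A := MvPolynomial.C
  let φ : k →+* M := al.comp ((MvPolynomial.C : A →+* R).comp ι0)
  have hΘC : ∀ c : k, Θ2 (MvPolynomial.C c) = MvPolynomial.C (MvPolynomial.C c) := by
    intro c
    exact spec_C g (w j0)⁻¹ cm W es c
  have hΘX : ∀ q, Θ2 (MvPolynomial.X q) = par g (w j0)⁻¹ cm W R es q := by
    intro q
    exact spec_X g (w j0)⁻¹ cm W es q
  have hsym : ∀ (p : Equiv.Perm (Fin m)) (x : A),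
      MvPolynomial.rename p (Θ2 x) = Θ2 x := by
    intro p x
    show (MvPolynomial.rename p : R →ₐ[A] R) (spec g (w j0)⁻¹ cm W R es x) = _
    rw [spec_map g (w j0)⁻¹ cm W es (MvPolynomial.rename p : R →ₐ[A] R) hg]
    congr 2
    funext i
    exact MvPolynomial.rename_esymm _ _ _ _
  have hΘq : ∀ q, (al.comp (Θ2.comp Θ1)) (MvPolynomial.X q) =
      al (par g (w j0)⁻¹ cm W R es q) := by
    intro q
    rw [RingHom.comp_apply, RingHom.comp_apply]
    have h1 : Θ1 (MvPolynomial.X q) = MvPolynomial.X q := MvPolynomial.map_X _ _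
    rw [h1, hΘX]
  have hΘo : ∀ o, (al.comp (Θ2.comp Θ1)) (MvPolynomial.C o) =
      al (MvPolynomial.C (MvPolynomial.C (algebraMap O k o))) := by
    intro o
    rw [RingHom.comp_apply, RingHom.comp_apply]
    have h1 : Θ1 (MvPolynomial.C o) = MvPolynomial.C (algebraMap O k o) := MvPolynomial.map_C _ _
    rw [h1, hΘC]
  refine ⟨M, inferInstance, φ, al.comp (Θ2.comp Θ1), fun l => al (MvPolynomial.X l), ?_, hΘo, ?_,
    ?_, ?_, ?_⟩
  · exact hal.comp (hΘ2.comp hΘ1)
  · exact hal.comp MvPolynomial.X_injective
  · intro l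
    have key : ∑ i : Fin (m + 1), (∑ j, par g (w j0)⁻¹ cm W R es (e i, j) *
        (MvPolynomial.C (MvPolynomial.C (w j)))) * (MvPolynomial.X l : R) ^ (i : ℕ) = 0 := by
      rw [Fin.sum_univ_castSucc]
      have hlast : ∑ j, par g (w j0)⁻¹ cm W R es (e (Fin.last m), j) *
          (MvPolynomial.C (MvPolynomial.C (w j))) = (MvPolynomial.C cm : R) := by
        simp only [cm, map_sum]
        refine Finset.sum_congr rfl fun j _ => ?_
        have : ¬ ∃ i, g i = (e (Fin.last m), j) := by
          rintro ⟨i, hi⟩
          have h1 := he (congrArg Prod.fst hi)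
          exact absurd h1 (Fin.castSucc_lt_last i).ne
        unfold par
        rw [Function.extend_apply' _ _ _ this, map_mul]
        rfl
      have hi : ∀ i : Fin m, ∑ j, par g (w j0)⁻¹ cm W R es (e i.castSucc, j) *
          (MvPolynomial.C (MvPolynomial.C (w j))) =
          (MvPolynomial.C cm : R) * ((-1) ^ ((Fin.rev i : ℕ) + 1) * es (Fin.rev i)) := by
        intro i
        have h1 : ∀ j, par g (w j0)⁻¹ cm W R es (e i.castSucc, j) *
            (MvPolynomial.C (MvPolynomial.C (w j))) =
            (if j = j0 then ((MvPolynomial.C cm : R) * ((-1) ^ ((Fin.rev i : ℕ) + 1) *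
              es (Fin.rev i)) - MvPolynomial.C (W i)) else 0) +
            MvPolynomial.C (if j = j0 then 0 else
              MvPolynomial.X (e i.castSucc, j) * MvPolynomial.C (w j)) := by
          intro j
          by_cases hj : j = j0
          · subst hj
            rw [if_pos rfl, if_pos rfl, map_zero, add_zero]
            have h2 : par g (w j)⁻¹ cm W R es (e i.castSucc, j) =
                par g (w j)⁻¹ cm W R es (g i) := rfl
            rw [h2]
            unfold par
            rw [hg.extend_apply]
            have h3 : (MvPolynomial.C (MvPolynomial.C (w j)⁻¹) : R) *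
                MvPolynomial.C (MvPolynomial.C (w j)) = 1 := by
              rw [← MvPolynomial.C_mul, ← MvPolynomial.C_mul, inv_mul_cancel₀ hw0,
                MvPolynomial.C_1, MvPolynomial.C_1]
            show (MvPolynomial.C (MvPolynomial.C (w j)⁻¹) : R) *
              ((MvPolynomial.C cm : R) * (-1) ^ ((Fin.rev i : ℕ) + 1) * es (Fin.rev i) -
                MvPolynomial.C (W i)) * MvPolynomial.C (MvPolynomial.C (w j)) = _
            linear_combination ((MvPolynomial.C cm : R) * (-1) ^ ((Fin.rev i : ℕ) + 1) *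
              es (Fin.rev i) - MvPolynomial.C (W i)) * h3
          · rw [if_neg hj, if_neg hj, zero_add]
            have : ¬ ∃ i', g i' = (e i.castSucc, j) := by
              rintro ⟨i', hi'⟩
              exact hj (congrArg Prod.snd hi').symm
            unfold par
            rw [Function.extend_apply' _ _ _ this, map_mul]
            rfl
        simp_rw [h1, Finset.sum_add_distrib]
        rw [Finset.sum_ite_eq' Finset.univ j0, if_pos (Finset.mem_univ _), ← map_sum]
        show _ - MvPolynomial.C (W i) + MvPolynomial.C (W i) = _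
        ring
      rw [hlast]
      simp_rw [hi]
      have hv := vieta A m l
      simp only [Fin.val_castSucc, Fin.val_last]
      have h7 : ∑ i : Fin m, (MvPolynomial.C cm : R) * ((-1) ^ ((Fin.rev i : ℕ) + 1) *
          es (Fin.rev i)) * (MvPolynomial.X l : R) ^ (i : ℕ) =
          (MvPolynomial.C cm : R) * ∑ i : Fin m, (-1) ^ ((Fin.rev i : ℕ) + 1) *
            MvPolynomial.esymm (Fin m) A ((Fin.rev i : ℕ) + 1) *
            (MvPolynomial.X l : R) ^ (i : ℕ) := by
        rw [Finset.mul_sum]
        refine Finset.sum_congr rfl fun i _ => ?_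
        rw [mul_assoc]
      rw [h7, ← mul_add, hv, mul_zero]
    have h4 := congrArg al key
    rw [map_zero, map_sum] at h4
    rw [← h4]
    refine Finset.sum_congr rfl fun i _ => ?_
    rw [map_mul al, map_pow al, map_sum al]
    refine congrArg (fun u => u * (al (MvPolynomial.X l)) ^ (i : ℕ)) ?_
    refine Finset.sum_congr rfl fun j _ => ?_
    rw [map_mul al, hΘq, hΘo]
  · intro p
    let r : R ≃ₐ[A] R := MvPolynomial.renameEquiv A p
    let σ : M ≃+* M := IsFractionRing.ringEquivOfRingEquiv (K := M) (L := M) r.toRingEquiv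
    have hσ : ∀ x : R, σ (al x) = al (MvPolynomial.rename p x) := by
      intro x
      exact IsFractionRing.ringEquivOfRingEquiv_algebraMap _ _
    refine ⟨σ, ?_, ?_⟩
    · intro x
      show σ (al (Θ2 (Θ1 x))) = al (Θ2 (Θ1 x))
      rw [hσ, hsym]
    · intro l
      show σ (al (MvPolynomial.X l)) = al (MvPolynomial.X (p l))
      rw [hσ, MvPolynomial.rename_X]
  · intro S hm' hS h1 l l' hne hsq
    obtain ⟨z, hz⟩ := hsq
    have hφ : ∀ l : Fin m, eval₂ φ (al (MvPolynomial.X l)) S =
        al (eval₂ ((MvPolynomial.C : A →+* R).comp ι0) (MvPolynomial.X l) S) := by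
      intro l
      rw [hom_eval₂]
    rw [hφ, hφ, ← map_mul] at hz
    have hzi : ∃ y : R, algebraMap R M y = z := by
      apply IsIntegrallyClosed.exists_algebraMap_eq_of_isIntegral_pow (n := 2) (by norm_num)
      rw [sq, ← hz]
      exact isIntegral_algebraMap
    obtain ⟨y, rfl⟩ := hzi
    have hz2 : y * y = eval₂ ((MvPolynomial.C : A →+* R).comp ι0) (MvPolynomial.X l) S *
        eval₂ ((MvPolynomial.C : A →+* R).comp ι0) (MvPolynomial.X l') S := by
      apply hal
      rw [hz, map_mul]
    refine not_sq ι0 (MvPolynomial.eval₂Hom (RingHom.id k) (fun _ => 0)) ?_ m S hm' hS h1 l l' hne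
      y hz2
    ext x
    simp [ι0]
    exact MvPolynomial.constantCoeff_C _ x

end Pool.Agent.Helper79.RGN
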